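import Pool.Agent.H.MP_03af15_an.A

set_option autoImplicit false

namespace Pool.Agent.H.MP_d36490_an
open Finset Polynomial MP_03af15_an

theorem lag_pos (ρ : ℝ) (x r z : ℂ) (hx : Complex.normSq x < ρ) (hr : Complex.normSq r < ρ)
    (hz : ρ ≤ Complex.normSq z) :
    0 < ((ρ - (starRingEnd ℂ) r * x) * ((r - z) / (x - z))).re := by
  have n0 : 0 < Complex.normSq (x - z) := Complex.normSq_pos.mpr (by
    intro e; rw [sub_eq_zero] at e; rw [e] at hx; linarith)
  rw [← mul_div_assoc, Complex.div_re, ← add_div]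
  refine div_pos ?_ n0
  have a1 := mul_nonneg (sub_pos.2 hx).le (Complex.normSq_nonneg (r - z))
  have a2 := mul_pos (sub_pos.2 hr) n0
  have a3 := mul_nonneg (sub_nonneg.2 hz) (Complex.normSq_nonneg (r - x))
  simp only [Complex.normSq_apply, Complex.mul_re, Complex.mul_im, Complex.sub_re, Complex.sub_im,
    Complex.ofReal_re, Complex.ofReal_im, Complex.conj_re, Complex.conj_im] at a1 a2 a3 ⊢
  nlinarith

theorem nsq {x : ℂ} {ρ : ℝ} (h : 0 < ρ) : Complex.normSq x < ρ ^ 2 ↔ ‖x‖ < ρ := by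
  rw [Complex.normSq_eq_norm_sq, sq_lt_sq₀ (norm_nonneg _) h.le]

theorem laguerre (ρ : ℝ) (f : ℂ[X]) (n : ℕ) (hn : 0 < n) (hd : f.natDegree ≤ n)
    (hf : ∀ t, ‖t‖ < ρ → f.eval t ≠ 0) (r x : ℂ) (hr : ‖r‖ < ρ)
    (hx : ‖x‖ < ρ) : n * f.eval x + (r - x) * (derivative f).eval x ≠ 0 := by
  have hρ := (norm_nonneg _).trans_lt hr
  have px := hf x hx
  have n0 : (n : ℂ) ≠ 0 := by exact_mod_cast hn.ne'
  have p0 : f ≠ 0 := by rintro rfl; simp at px
  have e := (IsAlgClosed.splits f).eval_derivative_div_eval_of_ne_zero px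
  have cd : f.roots.card = f.natDegree := IsAlgClosed.card_roots_eq_natDegree
  by_cases m0 : f.roots = 0
  · rw [m0] at e
    simp only [Multiset.map_zero, Multiset.sum_zero, div_eq_zero_iff] at e
    rw [e.resolve_right px, mul_zero, add_zero]; exact mul_ne_zero n0 px
  obtain ⟨κ, hκ⟩ : ∃ κ, κ = ((ρ ^ 2 : ℝ) : ℂ) - (starRingEnd ℂ) r * x := ⟨_, rfl⟩
  have k0 : 0 ≤ κ.re := by
    rw [hκ, Complex.sub_re, Complex.ofReal_re]
    have := Complex.re_le_norm ((starRingEnd ℂ) r * x)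
    rw [norm_mul, Complex.norm_conj] at this
    nlinarith [norm_nonneg r, norm_nonneg x]
  have out : ∀ z ∈ f.roots, ρ ≤ ‖z‖ := fun z hz => by
    by_contra hh
    exact hf z (not_le.mp hh) ((mem_roots p0).mp hz)
  have e2 : (r - x) * (f.roots.map fun z => 1 / (x - z)).sum + f.roots.card =
      (f.roots.map fun z => (r - z) / (x - z)).sum := by
    rw [← Multiset.sum_map_mul_left, ← nsmul_one, ← Multiset.sum_replicate,
      ← Multiset.map_const' f.roots (1:ℂ), ← Multiset.sum_map_add]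
    refine congrArg _ (Multiset.map_congr rfl (fun z hz => ?_))
    have : x - z ≠ 0 := by
      intro h; rw [sub_eq_zero] at h; have := out z hz; rw [← h] at this; linarith
    field_simp; ring
  have pos : 0 < (κ * (f.roots.map fun z => (r - z) / (x - z)).sum).re := by
    rw [← Multiset.sum_map_mul_left]
    have := map_multiset_sum Complex.reAddGroupHom (f.roots.map fun z => κ * ((r - z) / (x - z)))
    rw [Complex.coe_reAddGroupHom] at this
    rw [this]
    refine msum_pos _ (fun t ht => ?_) (by simpa using m0)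
    simp only [Multiset.map_map, Multiset.mem_map, Function.comp_apply] at ht
    obtain ⟨z, hz, rfl⟩ := ht
    rw [hκ]
    exact lag_pos _ x r z ((nsq hρ).2 hx) ((nsq hρ).2 hr)
      (not_lt.1 fun h => (out z hz).not_gt ((nsq hρ).1 h))
  intro h
  have e3 : (r - x) * ((derivative f).eval x / f.eval x) = -n := by
    field_simp; linear_combination h
  rw [← e2, ← e, e3, cd] at pos
  have : (κ * (-(n:ℂ) + (f.natDegree : ℂ))).re = κ.re * (-(n:ℝ) + f.natDegree) := by
    simp [Complex.mul_re]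
  have hd' : (f.natDegree : ℝ) ≤ n := by exact_mod_cast hd
  rw [this] at pos
  nlinarith

theorem gws (ρ : ℝ) (hρ : 0 < ρ) (c : ℂ[X]) (c0 : c ≠ 0)
    (hc : ∀ z, c.eval z = 0 → ‖-z‖ < ρ) (φ : ℕ → ℂ)
    (hφ : ∀ t, ‖t‖ < ρ → (Dp c.natDegree φ).eval t ≠ 0) : pr c φ ≠ 0 := by
  refine root_ind (fun s => ‖s‖ < ρ) (fun c => ∀ φ : ℕ → ℂ,
    (∀ t, ‖t‖ < ρ → (Dp c.natDegree φ).eval t ≠ 0) → pr c φ ≠ 0) ?_ ?_ c c0 hc φ hφ
  · intro c hc φ h
    have := h 0 (by simpa using hρ)
    rw [pr_range _ _ 1 (by simp)]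
    simpa [Dp, hc] using this
  · intro q s hs q0 ih φ h
    rw [natDegree_mul (X_add_C_ne_zero _) q0, natDegree_X_add_C, add_comm] at h
    rw [pr_mul]
    refine ih _ (fun t ht h0 => ?_)
    refine laguerre ρ _ (q.natDegree + 1) (Nat.succ_pos _) (Dp_deg _ φ) h s t hs ht ?_
    rw [Dp_lin] at h0
    rw [Dp_der, Dp]
    simp only [eval_add, eval_mul, eval_C, eval_X, eval_natCast, eval_one] at h0 ⊢
    push_cast
    linear_combination ((q.natDegree : ℂ) + 1) * h0

theorem Dp_eval (n : ℕ) (φ : ℕ → ℂ) (t : ℂ) :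
    (Dp n φ).eval t = ∑ j ∈ range (n + 1), t ^ (n - j) * n.choose j * φ j := by
  rw [← pr_pow, pr_range _ _ (n + 1) (by
    rw [natDegree_pow, natDegree_X_add_C]; omega)]
  simp only [coeff_X_add_C_pow]

/-- no zeros of the reversed polynomial in a disc -/
def N (n : ℕ) (φ : ℕ → ℂ) (ρ : ℝ) : Prop := ∀ t, ‖t‖ < ρ → (Dp n φ).eval t ≠ 0

theorem N.mul {n : ℕ} {φ ψ : ℕ → ℂ} {ρ σ : ℝ} (hρ : 0 < ρ) (hσ : 0 < σ) (h1 : N n φ ρ)
    (h2 : N n ψ σ) : N n (fun j => φ j * ψ j) (ρ * σ) := fun t ht => by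
  have h3 : ψ n ≠ 0 := by
    have := h2 0 (by simpa using hσ)
    rw [Dp_eval, sum_range_succ, sum_eq_zero fun j hj => by
      rw [zero_pow (by have := mem_range.1 hj; omega), zero_mul, zero_mul]] at this
    simpa using this
  set c : ℂ[X] := ∑ j ∈ range (n + 1), monomial j (t ^ (n - j) * n.choose j * ψ j) with hc
  have h4 : ∀ j, c.coeff j = if j < n + 1 then t ^ (n - j) * n.choose j * ψ j else 0 := fun j => by
    simp [hc, coeff_monomial]
  have h5 : c.coeff n ≠ 0 := by simpa [h4] using h3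
  have h6 : c.natDegree = n := natDegree_eq_of_le_of_coeff_ne_zero
    (natDegree_le_iff_coeff_eq_zero.2 fun j hj => by rw [h4, if_neg (by omega)]) h5
  have h7 := gws ρ hρ c (fun h => h5 (by simp [h])) (fun z hz => ?_) φ (h6 ▸ h1)
  · rw [pr_range _ _ (n + 1) (by omega)] at h7
    rw [Dp_eval]
    convert h7 using 1
    refine sum_congr rfl fun j hj => ?_
    rw [h4, if_pos (mem_range.1 hj)]; ring
  · rw [norm_neg]
    by_contra h8
    have h9 : 0 < ‖z‖ := hρ.trans_le (not_lt.1 h8)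
    have h10 : z ≠ 0 := norm_pos_iff.1 h9
    refine h2 (t / z) (by
      rw [norm_div, div_lt_iff₀ h9]; nlinarith [not_lt.1 h8]) ?_
    rw [Dp_eval]
    refine (mul_eq_zero.1 (Eq.trans ?_ hz)).resolve_left (pow_ne_zero n h10)
    rw [hc, eval_finset_sum, mul_sum]
    refine sum_congr rfl fun j hj => ?_
    obtain ⟨k, rfl⟩ : ∃ k, n = j + k := ⟨n - j, by have := mem_range.1 hj; omega⟩
    rw [eval_monomial, Nat.add_sub_cancel_left, div_pow, pow_add]
    field_simp

theorem N.prod {ι : Type*} (s : Finset ι) {n : ℕ} {ψ : ℕ → ℂ} {σ : ℝ} (hσ : 0 < σ) (h : N n ψ σ)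
    (φ : ι → ℕ → ℂ) (ρ : ι → ℝ) (h1 : ∀ i, 0 < ρ i) (h2 : ∀ i, N n (φ i) (ρ i)) :
    N n (fun j => (∏ i ∈ s, φ i j) * ψ j) ((∏ i ∈ s, ρ i) * σ) := by
  classical
  induction s using Finset.induction_on with
  | empty => simpa using h
  | insert i s hi ih =>
    simp only [prod_insert hi, mul_assoc]
    exact (h2 i).mul (h1 i) (mul_pos (prod_pos fun i _ => h1 i) hσ) ih

theorem N.of_smul {n : ℕ} {φ ψ : ℕ → ℂ} {ρ : ℝ} (h : N n φ ρ) (c : ℂ) (e : ∀ j, φ j = c * ψ j) :
    N n ψ ρ := fun t ht h0 => h t ht (by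
  rw [Dp_eval] at h0 ⊢
  rw [← mul_zero c, ← h0, mul_sum]
  exact sum_congr rfl fun j _ => by rw [e]; ring)

theorem N_lin (n : ℕ) (c : ℂ) (hc : 0 ≤ c.re) : N (n + 1) (fun j => j + c) 1 := fun t ht => by
  have h : ∀ (n : ℕ) (c : ℂ), (Dp (n + 1) (fun j => j + c)).eval t =
      (t + 1) ^ n * (c * t + (c + (n + 1 : ℕ))) := fun n => by
    induction n with
    | zero => intro c; simp [Dp]; ring
    | succ n ih =>
      intro c
      rw [Dp, eval_add, eval_mul, ih, eval_X,
        show (fun j : ℕ => ((j + 1 : ℕ) : ℂ) + c) = fun j : ℕ => (j : ℂ) + (c + 1) from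
          funext fun j => by push_cast; ring, ih]
      push_cast; ring
  rw [h]
  refine mul_ne_zero (pow_ne_zero _ fun h0 => ?_) fun h0 => ?_
  · rw [eq_neg_of_add_eq_zero_left h0] at ht; simp at ht
  · have h1 : ‖c * t‖ ^ 2 = ‖c + (n + 1 : ℕ)‖ ^ 2 := by
      rw [eq_neg_of_add_eq_zero_left h0, norm_neg]
    rw [norm_mul, mul_pow, Complex.sq_norm, Complex.sq_norm (c + _), Complex.normSq_apply,
      Complex.normSq_apply] at h1
    simp only [Complex.add_re, Complex.add_im, Complex.natCast_re, Complex.natCast_im] at h1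
    have h2 : ‖t‖ ^ 2 ≤ 1 := by nlinarith [norm_nonneg t]
    have h3 : (0 : ℝ) < (n + 1 : ℕ) := by positivity
    nlinarith [mul_self_nonneg c.re, mul_self_nonneg c.im]

theorem N_fact (n : ℕ) : N n (fun j => j.factorial) ((n + 1) / 10) := fun t ht h0 => by
  have h1 : ∑ m ∈ range (n + 1), t ^ m / m.factorial = 0 := by
    have h2 : (n.factorial : ℂ) ≠ 0 := by exact_mod_cast n.factorial_ne_zero
    refine (mul_eq_zero.1 (Eq.trans ?_ h0)).resolve_left h2
    rw [Dp_eval, mul_sum, ← sum_range_reflect]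
    refine sum_congr rfl fun j hj => ?_
    have h3 := Nat.choose_mul_factorial_mul_factorial (Nat.lt_succ_iff.1 (mem_range.1 hj))
    have h4 : ((n - j).factorial : ℂ) ≠ 0 := by exact_mod_cast Nat.factorial_ne_zero _
    rw [← h3, show n + 1 - 1 - j = n - j by omega]
    push_cast; field_simp
  have h2 := Complex.exp_bound' (x := t) (n := n + 1) (by
    rw [div_le_iff₀ (by positivity)]; push_cast; nlinarith [norm_nonneg t])
  rw [h1, sub_zero, Complex.norm_exp] at h2
  have h3 : Real.exp (-((n + 1) / 10)) ≤ Real.exp t.re := Real.exp_le_exp.2 (by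
    linarith [(abs_le.1 (Complex.abs_re_le_norm t)).1])
  have h4 := Real.pow_div_factorial_le_exp ((n + 1 : ℝ)) (by positivity) (n + 1)
  have h5 : ‖t‖ ^ (n + 1) / (n + 1).factorial ≤ (1 / 10) ^ (n + 1) * Real.exp (n + 1) := by
    refine le_trans ?_ (mul_le_mul_of_nonneg_left h4 (by positivity))
    rw [← mul_div_assoc, ← mul_pow]
    gcongr; linarith
  have h6 : Real.exp (11 / 10) < 4 := by
    have h7 := Real.exp_one_lt_d9
    have h8 := Real.exp_bound_div_one_sub_of_interval' (x := 1 / 10) (by norm_num) (by norm_num)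
    rw [show (11 / 10 : ℝ) = 1 + 1 / 10 by norm_num, Real.exp_add]
    nlinarith [Real.exp_pos 1, Real.exp_pos (1 / 10)]
  have h7 : (1 / 10 * Real.exp (11 / 10)) ^ (n + 1) ≤ (2 / 5) ^ 1 :=
    (pow_le_pow_left₀ (by positivity) (by linarith) _).trans
      (pow_le_pow_of_le_one (by norm_num) (by norm_num) (by omega))
  rw [mul_pow, ← Real.exp_nat_mul] at h7
  have h8 : Real.exp (n + 1) = Real.exp ((n + 1 : ℕ) * (11 / 10)) * Real.exp (-((n + 1) / 10)) := by
    rw [← Real.exp_add]; congr 1; push_cast; ring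
  rw [h8] at h5
  have := Real.exp_pos (-(((n : ℝ) + 1) / 10))
  nlinarith

end Pool.Agent.H.MP_d36490_an
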