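import Pool.Agent.H.MP_d36490_an.A

set_option autoImplicit false

namespace Pool.Agent.H.MP_d36490_an
open Finset Polynomial MP_03af15_an

/-- rising factorial -/
noncomputable def po (w : ℂ) (k : ℕ) : ℂ := ∏ i ∈ range k, (w + i)

theorem po_succ (w : ℂ) (k : ℕ) : po w (k + 1) = po w k * (w + k) := prod_range_succ _ _

theorem po_succ' (w : ℂ) (k : ℕ) : po w (k + 1) = w * po (w + 1) k := by
  rw [po, prod_range_succ', mul_comm]
  simp only [po, Nat.cast_zero, add_zero]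
  congr 1
  exact prod_congr rfl fun i _ => by push_cast; ring

theorem po_ne {w : ℂ} (h : ∀ i : ℕ, w + i ≠ 0) (k : ℕ) : po w k ≠ 0 :=
  prod_ne_zero_iff.2 fun i _ => h i

theorem po_add (w : ℂ) (m j : ℕ) : po w (m + j) = po w m * po (w + m) j := by
  rw [po, prod_range_add]
  simp only [po]
  congr 1
  exact prod_congr rfl fun i _ => by push_cast; ring

theorem po_one (k : ℕ) : po 1 k = k.factorial := by
  induction k with
  | zero => simp [po]
  | succ k ih => rw [po_succ, ih, Nat.factorial_succ]; push_cast; ring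

theorem po_neg (n j : ℕ) : po (-n) j = (-1) ^ j * n.choose j * j.factorial := by
  induction j with
  | zero => simp [po]
  | succ j ih =>
    rw [po_succ, ih, Nat.factorial_succ]
    rcases le_or_gt j n with h | h
    · have := congrArg (Nat.cast : ℕ → ℂ) (Nat.choose_succ_right_eq n j)
      push_cast [Nat.cast_sub h] at this ⊢
      linear_combination (-1) ^ j * (j.factorial : ℂ) * this
    · simp [Nat.choose_eq_zero_of_lt h, Nat.choose_eq_zero_of_lt (h.trans j.lt_succ_self)]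

noncomputable def E (u t : ℂ) (n : ℕ) (a c : ℂ) : ℂ :=
  ∑ k ∈ range (n + 1), n.choose k * (po a k * u ^ k) * (po c (n - k) * t ^ (n - k))

theorem E_succ (u t : ℂ) (n : ℕ) (a c : ℂ) :
    E u t (n + 1) a c = c * t * E u t n a (c + 1) + a * u * E u t n (a + 1) c := by
  have := sum_choose_succ_mul (fun i j => (po a i * u ^ i) * (po c j * t ^ j)) n
  simp only [E, mul_assoc] at this ⊢
  rw [this, mul_sum, mul_sum, mul_sum, mul_sum]
  congr 1
  · refine sum_congr rfl fun k hk => ?_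
    rw [show n + 1 - k = n - k + 1 by have := mem_range.1 hk; omega, po_succ']; ring
  · refine sum_congr rfl fun k hk => ?_
    rw [po_succ']; ring

theorem E_rel (u t : ℂ) (n : ℕ) (a c : ℂ) :
    (a + c + n) * E u t n a c = a * E u t n (a + 1) c + c * E u t n a (c + 1) := by
  simp only [E, mul_sum, ← sum_add_distrib]
  refine sum_congr rfl fun k hk => ?_
  have h1 := (po_succ a k).symm.trans (po_succ' a k)
  have h2 := (po_succ c (n - k)).symm.trans (po_succ' c (n - k))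
  rw [Nat.cast_sub (by have := mem_range.1 hk; omega)] at h2
  linear_combination (n.choose k * u ^ k * po c (n - k) * t ^ (n - k)) * h1 +
    (n.choose k * u ^ k * po a k * t ^ (n - k)) * h2

theorem Dp_E (t : ℂ) (n : ℕ) : ∀ a c : ℂ, (∀ i : ℕ, a + c + i ≠ 0) →
    po (a + c) n * (Dp n fun j => po a j / po (a + c) j).eval t = E (1 + t) t n a c := by
  induction n with
  | zero => intro a c _; simp [Dp, E, po]
  | succ n ih =>
    intro a c h
    have h0 : a + c ≠ 0 := by simpa using h 0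
    have h1 := ih (a + 1) c fun i => by
      have := h (i + 1); push_cast at this; convert this using 1; ring
    have h2 : (fun j => po a (j + 1) / po (a + c) (j + 1)) =
        fun j => a / (a + c) * (po (a + 1) j / po (a + 1 + c) j) + (0 : ℕ → ℂ) j := by
      funext j; rw [po_succ', po_succ', add_right_comm a c 1]; simp [div_mul_div_comm]
    have h3 : (Dp n 0).eval t = 0 := by simp [Dp_eval]
    rw [Dp, h2, Dp_lin, E_succ]
    simp only [eval_add, eval_mul, eval_X, eval_C, h3, add_zero]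
    have h4 := po_succ (a + c) n
    have h5 := po_succ' (a + c) n
    rw [add_right_comm a c 1] at h5
    have h6 : po (a + c) (n + 1) * (a / (a + c)) = a * po (a + 1 + c) n := by
      rw [h5]; field_simp
    linear_combination t * (a + c + n) * ih a c h + a * h1 + t * E_rel (1 + t) t n a c +
      t * (Dp n fun j => po a j / po (a + c) j).eval t * h4 +
      (Dp n fun j => po (a + 1) j / po (a + 1 + c) j).eval t * h6

theorem sum_ne (T : ℕ → ℂ) (n : ℕ) (h : ∀ k < n, ‖T k‖ ≤ ‖T (k + 1)‖ / 2) (h0 : T n ≠ 0) :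
    ∑ k ∈ range (n + 1), T k ≠ 0 := by
  have h1 : ∀ m ≤ n, ‖∑ k ∈ range m, T k‖ ≤ (1 - (1 / 2) ^ m) * ‖T m‖ := fun m hm => by
    induction m with
    | zero => simp
    | succ m ih =>
      rw [sum_range_succ, pow_succ]
      have h2 := ih (by omega)
      have h3 := h m (by omega)
      have h4 : (1 / 2 : ℝ) ^ m ≤ 1 := pow_le_one₀ (by norm_num) (by norm_num)
      refine (norm_add_le _ _).trans ?_
      nlinarith
  intro h2
  rw [sum_range_succ] at h2
  have h3 := h1 n le_rfl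
  rw [eq_neg_of_add_eq_zero_left h2, norm_neg] at h3
  have : (0 : ℝ) < (1 / 2) ^ n * ‖T n‖ := by positivity
  linarith

theorem ex_K {a : ℂ} (h : ∀ i : ℕ, a + i ≠ 0) : ∃ K : ℝ, 1 ≤ K ∧ ∀ k : ℕ, k + 1 ≤ K * ‖a + k‖ := by
  obtain ⟨M, hM⟩ := exists_nat_ge (2 * ‖a‖ + 1)
  refine ⟨2 + ∑ i ∈ range M, (i + 1) / ‖a + i‖, ?_, fun k => ?_⟩
  · have : 0 ≤ ∑ i ∈ range M, ((i : ℝ) + 1) / ‖a + i‖ := sum_nonneg fun i _ => by positivity
    linarith
  have h0 := norm_pos_iff.2 (h k)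
  rcases lt_or_ge k M with hk | hk
  · rw [← div_le_iff₀ h0]
    have := single_le_sum (f := fun i : ℕ => ((i : ℝ) + 1) / ‖a + i‖)
      (fun i _ => by positivity) (mem_range.2 hk)
    linarith
  · have h1 : 0 ≤ ∑ i ∈ range M, ((i : ℝ) + 1) / ‖a + i‖ := sum_nonneg fun i _ => by positivity
    have h2 := norm_sub_le (a + k) a
    rw [add_sub_cancel_left, Complex.norm_natCast] at h2
    have h3 : (M : ℝ) ≤ k := by exact_mod_cast hk
    nlinarith

theorem N_ratio {a b : ℂ} (ha : ∀ i : ℕ, a + i ≠ 0) (hb : ∀ i : ℕ, b + i ≠ 0) :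
    ∃ ρ : ℝ, 0 < ρ ∧ ∀ n, N n (fun j => po a j / po b j) ρ := by
  obtain ⟨c, rfl⟩ : ∃ c, b = a + c := ⟨b - a, by ring⟩
  obtain ⟨K, h1, hK⟩ := ex_K ha
  have hc := norm_nonneg c
  refine ⟨1 / (4 * K * (1 + ‖c‖)), by positivity, fun n t ht h0 => ?_⟩
  have h2 := Dp_E t n a c hb
  rw [h0, mul_zero] at h2
  rw [lt_div_iff₀ (by positivity)] at ht
  have h3 := norm_nonneg t
  have h4 : ‖t‖ ≤ 1 / 2 := by nlinarith [mul_nonneg h3 hc, mul_nonneg (mul_nonneg h3 hc) (sub_nonneg.2 h1)]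
  have h5 : 1 / 2 ≤ ‖1 + t‖ := by
    have := norm_sub_le (1 + t) t
    rw [add_sub_cancel_right, norm_one] at this; linarith
  refine sum_ne _ n (fun k hk => ?_) ?_ h2.symm
  · obtain ⟨m, rfl⟩ : ∃ m, n = k + 1 + m := ⟨n - (k + 1), by omega⟩
    rw [show k + 1 + m - k = m + 1 by omega, Nat.add_sub_cancel_left, po_succ, po_succ, pow_succ,
      pow_succ]
    have h6 : ((k + 1 + m).choose (k + 1) : ℝ) * (k + 1) = (k + 1 + m).choose k * (m + 1) := by
      have := Nat.choose_succ_right_eq (k + 1 + m) k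
      rw [show k + 1 + m - k = m + 1 by omega] at this
      exact_mod_cast this
    have h7 : ‖c + m‖ ≤ (1 + ‖c‖) * (m + 1) := by
      refine (norm_add_le _ _).trans ?_
      rw [Complex.norm_natCast]
      have : (0 : ℝ) ≤ m := m.cast_nonneg
      nlinarith
    have h8 : ((k + 1 + m).choose k : ℝ) * (‖c + m‖ * ‖t‖) ≤
        (k + 1 + m).choose (k + 1) * (‖a + k‖ * ‖1 + t‖) / 2 := by
      have h9 := hK k
      have h10 := norm_nonneg (a + k)
      calc _ ≤ ((k + 1 + m).choose k : ℝ) * ((1 + ‖c‖) * (m + 1) * ‖t‖) := by gcongr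
        _ = (k + 1 + m).choose (k + 1) * ((k + 1) * ((1 + ‖c‖) * ‖t‖)) := by
          linear_combination (-(1 + ‖c‖) * ‖t‖) * h6
        _ ≤ (k + 1 + m).choose (k + 1) * ((K * ‖a + k‖) * ((1 + ‖c‖) * ‖t‖)) := by gcongr
        _ ≤ (k + 1 + m).choose (k + 1) * (‖a + k‖ * ‖1 + t‖ / 2) := by
          gcongr; nlinarith
        _ = _ := by ring
    simp only [norm_mul, Complex.norm_natCast]
    have h9 := mul_le_mul_of_nonneg_right h8 (show 0 ≤ ‖po a k‖ * ‖(1 + t) ^ k‖ * ‖po c m‖ * ‖t ^ m‖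
      by positivity)
    linarith
  · have : 1 + t ≠ 0 := norm_pos_iff.1 (by linarith)
    simp [po_ne ha, this, show po c 0 = 1 from rfl]

theorem N_po {a : ℂ} (ha : ∀ i : ℕ, a + i ≠ 0) :
    ∃ ρ : ℝ, 0 < ρ ∧ ∀ n, N n (po a) (ρ * n) := by
  have h1 : ∀ i : ℕ, (1 : ℂ) + i ≠ 0 := fun i => by exact_mod_cast (by omega : 1 + i ≠ 0)
  obtain ⟨ρ, h0, h⟩ := N_ratio ha h1
  refine ⟨ρ / 10, by positivity, fun n t ht => ?_⟩
  have := ((h n).mul h0 (by positivity) (N_fact n)).of_smul 1 (ψ := po a) fun j => by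
    rw [← po_one, div_mul_cancel₀ _ (po_ne h1 j), one_mul]
  exact this t (ht.trans_le (by nlinarith))

theorem N_big (l : ℂ) : ∃ (ρ : ℝ) (m : ℕ), 0 < ρ ∧ ∀ n, m < n → N n (po (n + l)) (ρ * n) := by
  obtain ⟨m, hm⟩ := exists_nat_gt (-l.re)
  have h1 : ∀ i : ℕ, 0 < (l + m + i).re := fun i => by
    have : (0 : ℝ) ≤ i := i.cast_nonneg
    simp only [Complex.add_re, Complex.natCast_re]; linarith
  have h2 : ∀ i : ℕ, l + m + i ≠ 0 := fun i h => by simpa [h] using h1 i
  obtain ⟨ρ, h0, h⟩ := N_po h2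
  refine ⟨ρ, m, h0, fun n hn => ?_⟩
  obtain ⟨r, rfl⟩ : ∃ r, n = m + r + 1 := ⟨n - m - 1, by omega⟩
  have := (N.prod (range (r + 1)) (by positivity) (h (m + r + 1)) (fun i j => j + (l + m + i))
    (fun _ => 1) (fun _ => one_pos) fun i => N_lin _ _ (h1 i).le).of_smul (po (l + m) (r + 1))
    (ψ := po ((m + r + 1 : ℕ) + l)) fun j => by
      have h3 := po_add (l + m) (r + 1) j
      have h4 := po_add (l + m) j (r + 1)
      rw [add_comm j, h3] at h4
      rw [show ((m + r + 1 : ℕ) : ℂ) + l = l + m + (r + 1 : ℕ) by push_cast; ring, h4, mul_comm]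
      congr 1
      exact prod_congr rfl fun i _ => by ring
  simpa using this

noncomputable def co {p q : ℕ} (l : ℂ) (a : Fin p → ℂ) (b : Fin q → ℂ) (n j : ℕ) : ℂ :=
  po (-n) j * po (n + l) j * (∏ k, po (a k) j) / (∏ k, po (b k) j) / j.factorial

theorem big {q r : ℕ} (l : ℂ) (a : Fin (q + r) → ℂ) (b : Fin q → ℂ) (ha : ∀ k (i : ℕ), a k + i ≠ 0)
    (hb : ∀ k (i : ℕ), b k + i ≠ 0) : ∃ (M : ℝ) (m : ℕ), ∀ n, m < n → ∀ z : ℂ,
      ∑ j ∈ range (n + 1), co l a b n j * z ^ j = 0 → ‖z‖ * n ^ (r + 1) ≤ M := by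
  obtain ⟨ρ, m, h0, h⟩ := N_big l
  choose σ h1 h2 using fun k : Fin q => N_ratio (ha (Fin.castAdd r k)) (hb k)
  choose τ h3 h4 using fun k : Fin r => N_po (ha (Fin.natAdd q k))
  have h5 : 0 < ∏ k, σ k := prod_pos fun k _ => h1 k
  have h6 : 0 < ∏ k, τ k := prod_pos fun k _ => h3 k
  refine ⟨1 / ((∏ k, σ k) * ((∏ k, τ k) * ρ)), m, fun n hn z hz => ?_⟩
  have hn' : (0 : ℝ) < n := by exact_mod_cast (by omega : 0 < n)
  have h7 := N.prod univ (mul_pos (prod_pos fun k _ => mul_pos (h3 k) hn') (by positivity))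
    (N.prod univ (by positivity) (h n hn) _ (fun k => τ k * n) (fun k => mul_pos (h3 k) hn')
      fun k => h4 k n) _ σ h1 fun k => h2 k n
  by_contra hc
  have h8 : z ≠ 0 := by
    rintro rfl
    exact hc (by simp only [norm_zero, zero_mul]; positivity)
  have h9 := norm_pos_iff.2 h8
  refine h7 (-1 / z) ?_ ?_
  · rw [not_le, div_lt_iff₀ (by positivity)] at hc
    rw [norm_div, norm_neg, norm_one, div_lt_iff₀ h9, prod_mul_distrib, prod_const, card_univ,
      Fintype.card_fin]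
    refine hc.trans_eq ?_
    ring
  · rw [Dp_eval]
    refine (mul_eq_zero.1 (Eq.trans ?_ hz)).resolve_left (pow_ne_zero n (neg_ne_zero.2 h8))
    rw [mul_sum]
    refine sum_congr rfl fun j hj => ?_
    obtain ⟨k, rfl⟩ : ∃ k, n = j + k := ⟨n - j, by have := mem_range.1 hj; omega⟩
    have h10 : (j.factorial : ℂ) ≠ 0 := by exact_mod_cast j.factorial_ne_zero
    have h11 : (-z) ^ k * (-1 / z) ^ k = 1 := by
      rw [← mul_pow, show -z * (-1 / z) = 1 by field_simp, one_pow]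
    rw [co, po_neg, Fin.prod_univ_add, prod_div_distrib, Nat.add_sub_cancel_left, pow_add,
      neg_pow z j]
    have h12 : ∏ k, po (b k) j ≠ 0 := prod_ne_zero_iff.2 fun k _ => po_ne (hb k) j
    generalize (-z) ^ k = A at h11 ⊢
    generalize (-1 / z) ^ k = B at h11 ⊢
    rw [eq_inv_of_mul_eq_one_left h11]
    have : B ≠ 0 := right_ne_zero_of_mul_eq_one h11
    field_simp

theorem main {p q : ℕ} (hpq : q ≤ p) (l : ℂ) (a : Fin p → ℂ) (b : Fin q → ℂ)
    (ha : ∀ k (i : ℕ), a k ≠ -i) (hb : ∀ k (i : ℕ), b k ≠ -i) : ∃ M : ℝ, ∀ n, 1 ≤ n →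
      co l a b n n ≠ 0 → ∀ z : ℂ, ∑ j ∈ range (n + 1), co l a b n j * z ^ j = 0 →
        ‖z‖ ≤ M * (n : ℝ) ^ ((q : ℤ) - p - 1) := by
  obtain ⟨r, rfl⟩ := Nat.exists_eq_add_of_le hpq
  obtain ⟨M, m, h⟩ := big l a b (fun k i h => ha k i (eq_neg_of_add_eq_zero_left h))
    (fun k i h => hb k i (eq_neg_of_add_eq_zero_left h))
  have h1 : ∀ n : ℕ, ∃ M : ℝ, 0 ≤ M ∧ (co l a b n n ≠ 0 → ∀ z : ℂ,
      ∑ j ∈ range (n + 1), co l a b n j * z ^ j = 0 → ‖z‖ * n ^ (r + 1) ≤ M) := fun n => by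
    by_cases h0 : co l a b n n = 0
    · exact ⟨0, le_rfl, fun h => absurd h0 h⟩
    set c : ℂ[X] := ∑ j ∈ range (n + 1), monomial j (co l a b n j) with hc
    have h2 : c ≠ 0 := fun h => h0 (by simpa [hc, coeff_monomial] using congrArg (coeff · n) h)
    refine ⟨∑ z ∈ c.roots.toFinset, ‖z‖ * n ^ (r + 1), by positivity, fun _ z hz =>
      single_le_sum (f := fun z : ℂ => ‖z‖ * (n : ℝ) ^ (r + 1)) (fun _ _ => by positivity) ?_⟩
    rw [Multiset.mem_toFinset, mem_roots h2, IsRoot, hc, eval_finset_sum]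
    simpa using hz
  choose M' h2 h3 using h1
  refine ⟨|M| + ∑ n ∈ range (m + 1), M' n, fun n hn h0 z hz => ?_⟩
  have hn' : (0 : ℝ) < n := by exact_mod_cast hn
  rw [show (q : ℤ) - (q + r : ℕ) - 1 = -(r + 1 : ℕ) by push_cast; ring, zpow_neg, zpow_natCast,
    ← div_eq_mul_inv, le_div_iff₀ (by positivity)]
  rcases lt_or_ge m n with h4 | h4
  · have := sum_nonneg fun n (_ : n ∈ range (m + 1)) => h2 n
    linarith [h n h4 z hz, le_abs_self M]
  · have := single_le_sum (fun n _ => h2 n) (mem_range.2 (Nat.lt_succ_of_le h4))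
    linarith [h3 n h0 z hz, abs_nonneg M]

end Pool.Agent.H.MP_d36490_an
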